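import Mathlib

/-! Complex ball arithmetic with integer centres and radii in units `10 ^ (-12)`, in continuation
passing style (so that the kernel evaluates every number once). -/

set_option autoImplicit false

namespace Pool.Agent.K1H38.OM

/-- a ball -/
structure Ball where
  x : ℤ
  y : ℤ
  r : ℕ

/-- the scale -/
def DN : ℕ := 1000000000000

theorem DN_pos : 0 < DN := by unfold DN; norm_num

theorem DN_posR : (0 : ℝ) < (DN : ℝ) := by exact_mod_cast DN_pos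

theorem DN_ne : (DN : ℂ) ≠ 0 := by exact_mod_cast DN_pos.ne'

theorem le_succ_div (r N : ℕ) (hN : 0 < N) : r ≤ (r / N + 1) * N := by
  have := Nat.lt_div_mul_add (a := r) (b := N) hN
  rw [Nat.add_mul, Nat.one_mul]
  omega

/-- the centre -/
noncomputable def ctr (x y : ℤ) : ℂ := (x : ℂ) + (y : ℂ) * Complex.I

/-- membership -/
def Mem (b : Ball) (z : ℂ) : Prop := ‖(DN : ℂ) * z - ctr b.x b.y‖ ≤ b.r

/-- evaluate a natural number first -/
def forceN (n : ℕ) (f : ℕ → Bool) : Bool :=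
  Nat.rec (motive := fun _ => Bool) (f 0) (fun m _ => f (m + 1)) n

theorem forceN_eq (n : ℕ) (f : ℕ → Bool) : forceN n f = f n := by cases n <;> rfl

/-- evaluate an integer first -/
def forceZ (z : ℤ) (f : ℤ → Bool) : Bool :=
  match z with
  | Int.ofNat n => forceN n (fun m => f (Int.ofNat m))
  | Int.negSucc n => forceN n (fun m => f (Int.negSucc m))

theorem forceZ_eq (z : ℤ) (f : ℤ → Bool) : forceZ z f = f z := by
  cases z with
  | ofNat n => exact forceN_eq n fun m => f (Int.ofNat m)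
  | negSucc n => exact forceN_eq n fun m => f (Int.negSucc m)

/-- rounding after division by `N` -/
def rnd (a b : ℤ) (N r : ℕ) : Ball := ⟨a / N, b / N, r / N + 3⟩

/-- rounding -/
def rndK (a b : ℤ) (N r : ℕ) (k : Ball → Bool) : Bool :=
  forceZ (a / N) fun x => forceZ (b / N) fun y => forceN (r / N + 3) fun r' => k ⟨x, y, r'⟩

theorem rndK_eq (a b : ℤ) (N r : ℕ) (k : Ball → Bool) : rndK a b N r k = k (rnd a b N r) := by
  unfold rndK rnd
  rw [forceZ_eq, forceZ_eq, forceN_eq]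

theorem floor_err (a : ℤ) (N : ℕ) (hN : 0 < N) :
    ‖((a : ℂ) / (N : ℂ)) - ((a / (N : ℤ) : ℤ) : ℂ)‖ ≤ 1 := by
  have hN0 : (0 : ℝ) < N := by exact_mod_cast hN
  have h1 : ((a : ℂ) / (N : ℂ)) - ((a / (N : ℤ) : ℤ) : ℂ) =
      (((a : ℝ) / (N : ℝ) - ((a / (N : ℤ) : ℤ) : ℝ) : ℝ) : ℂ) := by push_cast; ring
  rw [h1, Complex.norm_real, Real.norm_eq_abs, abs_le]
  have h2 := Int.mul_ediv_add_emod a (N : ℤ)
  have h3 := Int.emod_nonneg a (b := (N : ℤ)) (by omega)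
  have h4 := Int.emod_lt_of_pos a (b := (N : ℤ)) (by omega)
  have h5 : (a : ℝ) = N * ((a / (N : ℤ) : ℤ) : ℝ) + ((a % (N : ℤ) : ℤ) : ℝ) := by exact_mod_cast h2.symm
  have h6 : (0 : ℝ) ≤ ((a % (N : ℤ) : ℤ) : ℝ) := by exact_mod_cast h3
  have h7 : ((a % (N : ℤ) : ℤ) : ℝ) < N := by exact_mod_cast h4
  have h8 : (a : ℝ) / N - ((a / (N : ℤ) : ℤ) : ℝ) = ((a % (N : ℤ) : ℤ) : ℝ) / N := by
    rw [eq_div_iff hN0.ne', sub_mul, div_mul_cancel₀ _ hN0.ne']
    linarith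
  rw [h8]
  constructor
  · have := div_nonneg h6 hN0.le
    linarith
  · rw [div_le_one hN0]; exact h7.le

theorem mem_rnd {a b : ℤ} {N r : ℕ} {z : ℂ} (hN : 0 < N)
    (h : ‖(N : ℂ) * ((DN : ℂ) * z) - ctr a b‖ ≤ r) : Mem (rnd a b N r) z := by
  have hN0 : (0 : ℝ) < N := by exact_mod_cast hN
  have hNc : (N : ℂ) ≠ 0 := by exact_mod_cast hN.ne'
  unfold Mem rnd
  simp only
  have e : (DN : ℂ) * z - ctr (a / N) (b / N) =
      ((N : ℂ) * ((DN : ℂ) * z) - ctr a b) / N + ((((a : ℂ) / (N : ℂ)) - ((a / (N : ℤ) : ℤ) : ℂ)) +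
        (((b : ℂ) / (N : ℂ)) - ((b / (N : ℤ) : ℤ) : ℂ)) * Complex.I) := by
    unfold ctr
    field_simp
    ring
  rw [e]
  refine (norm_add_le _ _).trans ?_
  have h1 : ‖((N : ℂ) * ((DN : ℂ) * z) - ctr a b) / N‖ ≤ ((r / N : ℕ) : ℝ) + 1 := by
    rw [norm_div, Complex.norm_natCast, div_le_iff₀ hN0]
    refine h.trans ?_
    have h5 := le_succ_div r N hN
    exact_mod_cast h5
  have h2 : ‖(((a : ℂ) / (N : ℂ)) - ((a / (N : ℤ) : ℤ) : ℂ)) +
        (((b : ℂ) / (N : ℂ)) - ((b / (N : ℤ) : ℤ) : ℂ)) * Complex.I‖ ≤ 2 := by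
    refine (norm_add_le _ _).trans ?_
    rw [norm_mul, Complex.norm_I, mul_one]
    have := floor_err a N hN
    have := floor_err b N hN
    linarith
  push_cast at h1 ⊢
  linarith

theorem rndK_sound {a b : ℤ} {N r : ℕ} {z : ℂ} {k : Ball → Bool} (hN : 0 < N)
    (h : ‖(N : ℂ) * ((DN : ℂ) * z) - ctr a b‖ ≤ r) (hk : rndK a b N r k = true) :
    ∃ d, Mem d z ∧ k d = true := ⟨rnd a b N r, mem_rnd hN h, by rwa [rndK_eq] at hk⟩

/-- upper bound for the absolute value -/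
def nu (x y : ℤ) : ℕ :=
  ((max x.natAbs y.natAbs + 5 * min x.natAbs y.natAbs / 12) *
    (max x.natAbs y.natAbs + 5 * min x.natAbs y.natAbs / 12) + x.natAbs * x.natAbs +
    y.natAbs * y.natAbs) / (2 * (max x.natAbs y.natAbs + 5 * min x.natAbs y.natAbs / 12)) + 1

theorem ctr_sq (x y : ℤ) : ‖ctr x y‖ ^ 2 = (x : ℝ) ^ 2 + (y : ℝ) ^ 2 := by
  unfold ctr
  rw [← Complex.normSq_eq_norm_sq]
  simp [Complex.normSq_apply]
  ring

theorem nu_sound (x y : ℤ) : ‖ctr x y‖ ≤ nu x y := by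
  have h0 := ctr_sq x y
  have hn := norm_nonneg (ctr x y)
  set n := ‖ctr x y‖
  unfold nu
  set m := max x.natAbs y.natAbs + 5 * min x.natAbs y.natAbs / 12 with hm
  have hx : ((x.natAbs : ℕ) : ℝ) ^ 2 = (x : ℝ) ^ 2 := by
    rw [Nat.cast_natAbs, Int.cast_abs, sq_abs]
  have hy : ((y.natAbs : ℕ) : ℝ) ^ 2 = (y : ℝ) ^ 2 := by
    rw [Nat.cast_natAbs, Int.cast_abs, sq_abs]
  rcases Nat.eq_zero_or_pos m with h | h
  · have h1 : x.natAbs = 0 := by
      have := le_max_left x.natAbs y.natAbs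
      omega
    have h2 : y.natAbs = 0 := by
      have := le_max_right x.natAbs y.natAbs
      omega
    rw [h1] at hx
    rw [h2] at hy
    have h3 : n ^ 2 = 0 := by rw [h0, ← hx, ← hy]; norm_num
    have h4 : n = 0 := by simpa using h3
    rw [h4]
    positivity
  · have h2 : ((m * m + x.natAbs * x.natAbs + y.natAbs * y.natAbs : ℕ) : ℝ) ≤
        (((m * m + x.natAbs * x.natAbs + y.natAbs * y.natAbs) / (2 * m) + 1 : ℕ) : ℝ) *
          (2 * (m : ℝ)) := by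
      have h3 := le_succ_div (m * m + x.natAbs * x.natAbs + y.natAbs * y.natAbs) (2 * m) (by omega)
      exact_mod_cast h3
    have h3 : ((m * m + x.natAbs * x.natAbs + y.natAbs * y.natAbs : ℕ) : ℝ) =
        (m : ℝ) ^ 2 + n ^ 2 := by
      push_cast
      rw [h0, ← hx, ← hy]
      ring
    rw [h3] at h2
    have hm0 : (0 : ℝ) < m := by exact_mod_cast h
    have h4 : n * (2 * m) ≤ (m : ℝ) ^ 2 + n ^ 2 := by nlinarith [sq_nonneg ((m : ℝ) - n)]
    exact le_of_mul_le_mul_right (h4.trans h2) (by positivity)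

theorem norm_le_of_mem {b : Ball} {z : ℂ} (h : Mem b z) :
    (DN : ℝ) * ‖z‖ ≤ ((nu b.x b.y + b.r : ℕ) : ℝ) := by
  have h1 : (DN : ℂ) * z = ((DN : ℂ) * z - ctr b.x b.y) + ctr b.x b.y := by ring
  have h2 : (DN : ℝ) * ‖z‖ = ‖(DN : ℂ) * z‖ := by rw [norm_mul, Complex.norm_natCast]
  rw [h2, h1]
  refine (norm_add_le _ _).trans ?_
  have := nu_sound b.x b.y
  unfold Mem at h
  push_cast
  linarith

theorem ctr_mul (a b c d : ℤ) : ctr (a * c - b * d) (a * d + b * c) = ctr a b * ctr c d := by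
  unfold ctr
  push_cast
  linear_combination (-(b : ℂ) * d) * Complex.I_mul_I

/-- product -/
def mulK (b c : Ball) (k : Ball → Bool) : Bool :=
  rndK (b.x * c.x - b.y * c.y) (b.x * c.y + b.y * c.x) DN
    (nu b.x b.y * c.r + nu c.x c.y * b.r + b.r * c.r) k

theorem mulK_sound {b c : Ball} {z w : ℂ} {k : Ball → Bool} (hk : mulK b c k = true)
    (hb : Mem b z) (hc : Mem c w) : ∃ d, Mem d (z * w) ∧ k d = true := by
  refine rndK_sound DN_pos ?_ hk
  rw [ctr_mul]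
  have e : (DN : ℂ) * ((DN : ℂ) * (z * w)) - ctr b.x b.y * ctr c.x c.y =
      ctr b.x b.y * ((DN : ℂ) * w - ctr c.x c.y) + ctr c.x c.y * ((DN : ℂ) * z - ctr b.x b.y) +
      ((DN : ℂ) * z - ctr b.x b.y) * ((DN : ℂ) * w - ctr c.x c.y) := by ring
  rw [e]
  refine (norm_add_le _ _).trans ?_
  push_cast
  refine add_le_add ((norm_add_le _ _).trans (add_le_add ?_ ?_)) ?_
  · rw [norm_mul]
    exact mul_le_mul (nu_sound _ _) hc (norm_nonneg _) (Nat.cast_nonneg _)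
  · rw [norm_mul]
    exact mul_le_mul (nu_sound _ _) hb (norm_nonneg _) (Nat.cast_nonneg _)
  · rw [norm_mul]
    exact mul_le_mul hb hc (norm_nonneg _) (Nat.cast_nonneg _)

/-- product of unimodular numbers -/
def mulUK (b c : Ball) (k : Ball → Bool) : Bool :=
  rndK (b.x * c.x - b.y * c.y) (b.x * c.y + b.y * c.x) DN (DN * (b.r + c.r) + b.r * c.r) k

theorem mulUK_sound {b c : Ball} {z w : ℂ} {k : Ball → Bool} (hk : mulUK b c k = true)
    (hb : Mem b z) (hc : Mem c w) (hz : ‖z‖ = 1) (hw : ‖w‖ = 1) :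
    ∃ d, Mem d (z * w) ∧ k d = true := by
  refine rndK_sound DN_pos ?_ hk
  rw [ctr_mul]
  have e : (DN : ℂ) * ((DN : ℂ) * (z * w)) - ctr b.x b.y * ctr c.x c.y =
      (DN : ℂ) * z * ((DN : ℂ) * w - ctr c.x c.y) + ctr c.x c.y * ((DN : ℂ) * z - ctr b.x b.y) := by
    ring
  have h1 : ‖ctr c.x c.y‖ ≤ (DN : ℝ) + c.r := by
    have e2 : ctr c.x c.y = (DN : ℂ) * w - ((DN : ℂ) * w - ctr c.x c.y) := by ring
    rw [e2]
    refine (norm_sub_le _ _).trans ?_
    rw [norm_mul, hw, mul_one, Complex.norm_natCast]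
    exact add_le_add le_rfl hc
  rw [e]
  refine (norm_add_le _ _).trans ?_
  rw [norm_mul, norm_mul, norm_mul, hz, mul_one, Complex.norm_natCast]
  have h2 : (DN : ℝ) * ‖(DN : ℂ) * w - ctr c.x c.y‖ ≤ DN * c.r :=
    mul_le_mul_of_nonneg_left hc (Nat.cast_nonneg _)
  have h3 : ‖ctr c.x c.y‖ * ‖(DN : ℂ) * z - ctr b.x b.y‖ ≤ ((DN : ℝ) + c.r) * b.r :=
    mul_le_mul h1 hb (norm_nonneg _) (by positivity)
  push_cast at h2 h3 ⊢
  linarith

/-- sum -/
def addK (b c : Ball) (k : Ball → Bool) : Bool :=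
  forceZ (b.x + c.x) fun x => forceZ (b.y + c.y) fun y => forceN (b.r + c.r) fun r => k ⟨x, y, r⟩

theorem addK_sound {b c : Ball} {z w : ℂ} {k : Ball → Bool} (hk : addK b c k = true)
    (hb : Mem b z) (hc : Mem c w) : ∃ d, Mem d (z + w) ∧ k d = true := by
  unfold addK at hk
  rw [forceZ_eq, forceZ_eq, forceN_eq] at hk
  refine ⟨_, ?_, hk⟩
  unfold Mem at *
  simp only
  have e : (DN : ℂ) * (z + w) - ctr (b.x + c.x) (b.y + c.y) =
      ((DN : ℂ) * z - ctr b.x b.y) + ((DN : ℂ) * w - ctr c.x c.y) := by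
    unfold ctr; push_cast; ring
  rw [e]
  refine (norm_add_le _ _).trans ?_
  push_cast
  exact add_le_add hb hc

/-- difference -/
def subK (b c : Ball) (k : Ball → Bool) : Bool :=
  forceZ (b.x - c.x) fun x => forceZ (b.y - c.y) fun y => forceN (b.r + c.r) fun r => k ⟨x, y, r⟩

theorem subK_sound {b c : Ball} {z w : ℂ} {k : Ball → Bool} (hk : subK b c k = true)
    (hb : Mem b z) (hc : Mem c w) : ∃ d, Mem d (z - w) ∧ k d = true := by
  unfold subK at hk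
  rw [forceZ_eq, forceZ_eq, forceN_eq] at hk
  refine ⟨_, ?_, hk⟩
  unfold Mem at *
  simp only
  have e : (DN : ℂ) * (z - w) - ctr (b.x - c.x) (b.y - c.y) =
      ((DN : ℂ) * z - ctr b.x b.y) - ((DN : ℂ) * w - ctr c.x c.y) := by
    unfold ctr; push_cast; ring
  rw [e]
  refine (norm_sub_le _ _).trans ?_
  push_cast
  exact add_le_add hb hc

/-- multiple by `a / q` -/
def lcK (b : Ball) (a q : ℕ) (k : Ball → Bool) : Bool :=
  rndK (b.x * a) (b.y * a) q (b.r * a) k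

theorem lcK_sound {b : Ball} {z : ℂ} {a q : ℕ} {k : Ball → Bool} (hk : lcK b a q k = true)
    (hb : Mem b z) (hq : 0 < q) : ∃ d, Mem d (z * a / q) ∧ k d = true := by
  refine rndK_sound hq ?_ hk
  have hqc : (q : ℂ) ≠ 0 := by exact_mod_cast hq.ne'
  have e : (q : ℂ) * ((DN : ℂ) * (z * a / q)) - ctr (b.x * a) (b.y * a) =
      ((DN : ℂ) * z - ctr b.x b.y) * a := by
    unfold ctr; push_cast; field_simp
  rw [e, norm_mul, Complex.norm_natCast]
  push_cast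
  exact mul_le_mul_of_nonneg_right hb (Nat.cast_nonneg _)

/-- larger radius -/
def widK (b : Ball) (e : ℕ) (k : Ball → Bool) : Bool := forceN (b.r + e) fun r => k ⟨b.x, b.y, r⟩

theorem widK_sound {b : Ball} {z z' : ℂ} {e : ℕ} {k : Ball → Bool} (hk : widK b e k = true)
    (hb : Mem b z) (he : (DN : ℝ) * ‖z' - z‖ ≤ e) : ∃ d, Mem d z' ∧ k d = true := by
  unfold widK at hk
  rw [forceN_eq] at hk
  refine ⟨_, ?_, hk⟩
  unfold Mem at *
  simp only
  have e1 : (DN : ℂ) * z' - ctr b.x b.y = ((DN : ℂ) * z - ctr b.x b.y) + (DN : ℂ) * (z' - z) := by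
    ring
  rw [e1]
  refine (norm_add_le _ _).trans ?_
  rw [norm_mul (DN : ℂ), Complex.norm_natCast]
  push_cast
  exact add_le_add hb he

/-- inverse of a number of absolute value at least one -/
def invK (w : Ball) (k : Ball → Bool) : Bool :=
  forceZ ((DN : ℤ) * DN * w.x / (w.x * w.x + w.y * w.y)) fun cx =>
  forceZ (-((DN : ℤ) * DN * w.y) / (w.x * w.x + w.y * w.y)) fun cy =>
  mulK ⟨cx, cy, 0⟩ w fun pr => forceN (nu (pr.x - DN) pr.y + pr.r) fun r => k ⟨cx, cy, r⟩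

theorem invK_sound {w : Ball} {z : ℂ} {k : Ball → Bool} (hk : invK w k = true)
    (hw : Mem w z) (hz : 1 ≤ ‖z‖) : ∃ d, Mem d (1 / z) ∧ k d = true := by
  unfold invK at hk
  rw [forceZ_eq, forceZ_eq] at hk
  generalize (DN : ℤ) * DN * w.x / (w.x * w.x + w.y * w.y) = cx at hk
  generalize -((DN : ℤ) * DN * w.y) / (w.x * w.x + w.y * w.y) = cy at hk
  have hz0 : z ≠ 0 := fun h => by rw [h, norm_zero] at hz; linarith
  have hD : (DN : ℂ) ≠ 0 := DN_ne
  have hc : Mem ⟨cx, cy, 0⟩ (ctr cx cy / DN) := by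
    unfold Mem
    simp only
    rw [mul_div_cancel₀ _ hD, sub_self, norm_zero]
    simp
  obtain ⟨pr, hp, hk⟩ := mulK_sound hk hc hw
  rw [forceN_eq] at hk
  refine ⟨_, ?_, hk⟩
  unfold Mem at *
  simp only
  have e1 : (DN : ℂ) * (1 / z) - ctr cx cy = ((DN : ℂ) - DN * (ctr cx cy / DN * z)) / z := by
    field_simp
  rw [e1, norm_div, div_le_iff₀ (by linarith)]
  have h1 : ‖(DN : ℂ) - DN * (ctr cx cy / DN * z)‖ ≤ ((nu (pr.x - DN) pr.y + pr.r : ℕ) : ℝ) := by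
    have e2 : (DN : ℂ) - DN * (ctr cx cy / DN * z) =
        -((DN * (ctr cx cy / DN * z) - ctr pr.x pr.y) + ctr (pr.x - DN) pr.y) := by
      unfold ctr; push_cast; ring
    rw [e2, norm_neg]
    refine (norm_add_le _ _).trans ?_
    have := nu_sound (pr.x - DN) pr.y
    push_cast
    linarith
  refine h1.trans ?_
  exact le_mul_of_one_le_right (Nat.cast_nonneg _) hz

/-- the ball of one -/
abbrev one : Ball := ⟨DN, 0, 0⟩

theorem mem_one : Mem one 1 := by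
  unfold Mem ctr
  simp

/-- powers of a unimodular number -/
def upowK (b : Ball) : ℕ → (Ball → Bool) → Bool
  | 0, k => k one
  | m + 1, k => upowK b m fun c => mulUK c b k

theorem upowK_sound {b : Ball} {z : ℂ} (hb : Mem b z) (hz : ‖z‖ = 1) : ∀ {m : ℕ} {k : Ball → Bool},
    upowK b m k = true → ∃ d, Mem d (z ^ m) ∧ k d = true := by
  intro m
  induction m with
  | zero => intro k hk; exact ⟨one, by simpa using mem_one, hk⟩
  | succ m ih =>
    intro k hk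
    obtain ⟨c, hc, hk⟩ := ih hk
    obtain ⟨d, hd, hk⟩ := mulUK_sound hk hc hb (by rw [norm_pow, hz, one_pow]) hz
    exact ⟨d, by rwa [pow_succ], hk⟩

/-- `acc + v a / q` -/
def alK (acc v : Ball) (a q : ℕ) (k : Ball → Bool) : Bool := lcK v a q fun t => addK acc t k

theorem alK_sound {acc v : Ball} {z w : ℂ} {a q : ℕ} {k : Ball → Bool} (hk : alK acc v a q k = true)
    (hb : Mem acc z) (hc : Mem v w) (hq : 0 < q) : ∃ d, Mem d (z + w * a / q) ∧ k d = true := by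
  obtain ⟨t, ht, hk⟩ := lcK_sound hk hc hq
  exact addK_sound hk hb ht

/-- `acc + v ^ 2 a / q` -/
def asK (acc v : Ball) (a q : ℕ) (k : Ball → Bool) : Bool := mulUK v v fun s => alK acc s a q k

theorem asK_sound {acc v : Ball} {z w : ℂ} {a q : ℕ} {k : Ball → Bool} (hk : asK acc v a q k = true)
    (hb : Mem acc z) (hc : Mem v w) (hw : ‖w‖ = 1) (hq : 0 < q) :
    ∃ d, Mem d (z + w * w * a / q) ∧ k d = true := by
  obtain ⟨t, ht, hk⟩ := mulUK_sound hk hc hc hw hw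
  exact alK_sound hk hb ht hq

/-- the factors of one prime -/
def prK (q1 q2 v : Ball) (p : ℕ) (k : Ball → Ball → Bool) : Bool :=
  lcK v 1 p fun z => subK one z fun a => addK one z fun b => addK b z fun c =>
  mulK b b fun b2 => mulK b2 b fun b3 => mulK a b3 fun ab => mulK q1 ab fun u => mulK q2 c fun u' =>
  k u u'

theorem prK_sound {q1 q2 v : Ball} {Q1 Q2 w : ℂ} {p : ℕ} {k : Ball → Ball → Bool}
    (hk : prK q1 q2 v p k = true) (h1 : Mem q1 Q1) (h2 : Mem q2 Q2) (hv : Mem v w) (hp : 0 < p) :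
    ∃ d e, Mem d (Q1 * ((1 - w / p) * (1 + w / p) ^ 3)) ∧ Mem e (Q2 * (1 + 2 * (w / p))) ∧
      k d e = true := by
  obtain ⟨z, hz, hk⟩ := lcK_sound hk hv hp
  obtain ⟨a, ha, hk⟩ := subK_sound hk mem_one hz
  obtain ⟨b, hb, hk⟩ := addK_sound hk mem_one hz
  obtain ⟨c, hc, hk⟩ := addK_sound hk hb hz
  obtain ⟨b2, hb2, hk⟩ := mulK_sound hk hb hb
  obtain ⟨b3, hb3, hk⟩ := mulK_sound hk hb2 hb
  obtain ⟨ab, hab, hk⟩ := mulK_sound hk ha hb3
  obtain ⟨u, hu, hk⟩ := mulK_sound hk h1 hab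
  obtain ⟨u', hu', hk⟩ := mulK_sound hk h2 hc
  refine ⟨u, u', ?_, ?_, hk⟩
  · convert hu using 1
    push_cast
    ring
  · convert hu' using 1
    push_cast
    ring

/-- the last test -/
def finK (num den : Ball) (x y : ℤ) (d : ℕ) : Bool :=
  mulK ⟨x * 1000000, y * 1000000, 0⟩ den fun wd => subK num wd fun df =>
    decide (0 < (den.x.natAbs * den.x.natAbs + den.y.natAbs * den.y.natAbs) / nu den.x den.y - den.r ∧
      (nu df.x df.y + df.r + ((nu num.x num.y + num.r) / 1000 + 1)) * 1000000 ≤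
      d * ((den.x.natAbs * den.x.natAbs + den.y.natAbs * den.y.natAbs) / nu den.x den.y - den.r))

/-- lower bound -/
theorem le_norm_of_mem {b : Ball} {z : ℂ} (h : Mem b z) (h0 : 0 < (b.x.natAbs * b.x.natAbs +
    b.y.natAbs * b.y.natAbs) / nu b.x b.y - b.r) :
    (((b.x.natAbs * b.x.natAbs + b.y.natAbs * b.y.natAbs) / nu b.x b.y - b.r : ℕ) : ℝ) ≤
      (DN : ℝ) * ‖z‖ := by
  have hs := ctr_sq b.x b.y
  have hn := norm_nonneg (ctr b.x b.y)
  have hnu := nu_sound b.x b.y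
  have hx : ((b.x.natAbs : ℕ) : ℝ) ^ 2 = (b.x : ℝ) ^ 2 := by
    rw [Nat.cast_natAbs, Int.cast_abs, sq_abs]
  have hy : ((b.y.natAbs : ℕ) : ℝ) ^ 2 = (b.y : ℝ) ^ 2 := by
    rw [Nat.cast_natAbs, Int.cast_abs, sq_abs]
  have hnu0 : 0 < nu b.x b.y := Nat.succ_pos _
  have hnu0' : (0 : ℝ) < nu b.x b.y := by exact_mod_cast hnu0
  have h1 : (((b.x.natAbs * b.x.natAbs + b.y.natAbs * b.y.natAbs) / nu b.x b.y : ℕ) : ℝ) ≤
      ‖ctr b.x b.y‖ := by
    have h2 : (((b.x.natAbs * b.x.natAbs + b.y.natAbs * b.y.natAbs) / nu b.x b.y : ℕ) : ℝ) ≤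
        ((b.x.natAbs * b.x.natAbs + b.y.natAbs * b.y.natAbs : ℕ) : ℝ) / (nu b.x b.y : ℝ) :=
      Nat.cast_div_le
    refine h2.trans ?_
    rw [div_le_iff₀ hnu0']
    have h3 : ((b.x.natAbs * b.x.natAbs + b.y.natAbs * b.y.natAbs : ℕ) : ℝ) =
        ‖ctr b.x b.y‖ * ‖ctr b.x b.y‖ := by
      push_cast
      rw [← sq ‖ctr b.x b.y‖, hs, ← hx, ← hy]
      ring
    rw [h3]
    exact mul_le_mul_of_nonneg_left hnu hn
  have h4 : ‖ctr b.x b.y‖ ≤ (DN : ℝ) * ‖z‖ + b.r := by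
    have e : ctr b.x b.y = (DN : ℂ) * z - ((DN : ℂ) * z - ctr b.x b.y) := by ring
    rw [e]
    refine (norm_sub_le _ _).trans ?_
    rw [norm_mul, Complex.norm_natCast]
    exact add_le_add le_rfl h
  rw [Nat.cast_sub (by omega)]
  linarith

theorem finK_sound {num den : Ball} {N M t : ℂ} {x y : ℤ} {d : ℕ} (hk : finK num den x y d = true)
    (hN : Mem num N) (hM : Mem den M) (ht : ‖t - 1‖ ≤ 1 / 1000) :
    ‖N * t / M - ((x : ℂ) + (y : ℂ) * Complex.I) / 10 ^ 6‖ ≤ (d : ℝ) / 10 ^ 6 := by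
  have hw : Mem ⟨x * 1000000, y * 1000000, 0⟩ (((x : ℂ) + (y : ℂ) * Complex.I) / 10 ^ 6) := by
    unfold Mem ctr
    simp only
    have : ((DN : ℕ) : ℂ) * (((x : ℂ) + (y : ℂ) * Complex.I) / 10 ^ 6) -
        (((x * 1000000 : ℤ) : ℂ) + ((y * 1000000 : ℤ) : ℂ) * Complex.I) = 0 := by
      unfold DN
      push_cast; ring
    rw [this, norm_zero]
    simp
  obtain ⟨wd, hwd, hk⟩ := mulK_sound hk hw hM
  obtain ⟨df, hdf, hk⟩ := subK_sound hk hN hwd
  have hk' := of_decide_eq_true hk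
  obtain ⟨h1, h2⟩ := hk'
  set L := (den.x.natAbs * den.x.natAbs + den.y.natAbs * den.y.natAbs) / nu den.x den.y - den.r
    with hL
  have h3 := le_norm_of_mem hM h1
  have h4 := norm_le_of_mem hdf
  have h5 := norm_le_of_mem hN
  set w : ℂ := ((x : ℂ) + (y : ℂ) * Complex.I) / 10 ^ 6 with hwdef
  have hD : (0 : ℝ) < (DN : ℝ) := DN_posR
  have hL0 : (0 : ℝ) < (L : ℝ) := by exact_mod_cast h1
  have hM0 : 0 < ‖M‖ := by
    by_contra hcon
    have : ‖M‖ = 0 := le_antisymm (not_lt.1 hcon) (norm_nonneg _)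
    rw [this, mul_zero] at h3
    linarith
  have hMne : M ≠ 0 := norm_pos_iff.1 hM0
  have e1 : N * t / M - w = ((N - w * M) + N * (t - 1)) / M := by
    field_simp
    ring
  rw [e1, norm_div, div_le_div_iff₀ hM0 (by norm_num)]
  have h6 : ‖(N - w * M) + N * (t - 1)‖ ≤ ‖N - w * M‖ + ‖N‖ / 1000 := by
    refine (norm_add_le _ _).trans ?_
    rw [norm_mul]
    have := mul_le_mul_of_nonneg_left ht (norm_nonneg N)
    linarith
  have h7 : ((nu num.x num.y + num.r : ℕ) : ℝ) / 1000 ≤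
      (((nu num.x num.y + num.r) / 1000 + 1 : ℕ) : ℝ) := by
    rw [div_le_iff₀ (by norm_num)]
    have h8 := le_succ_div (nu num.x num.y + num.r) 1000 (by norm_num)
    exact_mod_cast h8
  have h8 : ((nu df.x df.y + df.r : ℕ) : ℝ) + (((nu num.x num.y + num.r) / 1000 + 1 : ℕ) : ℝ) ≤
      (d : ℝ) * L / 1000000 := by
    rw [le_div_iff₀ (by norm_num)]
    exact_mod_cast h2
  have h9 : (DN : ℝ) * ‖(N - w * M) + N * (t - 1)‖ ≤ (d : ℝ) * L / 1000000 := by
    have h10 := mul_le_mul_of_nonneg_left h6 hD.le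
    rw [mul_add] at h10
    have h11 : (DN : ℝ) * (‖N‖ / 1000) = ((DN : ℝ) * ‖N‖) / 1000 := by ring
    rw [h11] at h10
    have h12 : ((DN : ℝ) * ‖N‖) / 1000 ≤ ((nu num.x num.y + num.r : ℕ) : ℝ) / 1000 := by
      exact div_le_div_of_nonneg_right h5 (by norm_num)
    linarith
  have h10 : (d : ℝ) * L / 1000000 ≤ (d : ℝ) * ((DN : ℝ) * ‖M‖) / 1000000 := by
    refine div_le_div_of_nonneg_right ?_ (by norm_num)
    exact mul_le_mul_of_nonneg_left h3 (Nat.cast_nonneg _)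
  have h11 : (DN : ℝ) * ‖(N - w * M) + N * (t - 1)‖ ≤ (DN : ℝ) * ((d : ℝ) * ‖M‖ / 1000000) := by
    refine h9.trans (h10.trans (le_of_eq ?_))
    ring
  have h12 := le_of_mul_le_mul_left h11 hD
  have h13 : (10 : ℝ) ^ 6 = 1000000 := by norm_num
  rw [h13]
  linarith

end Pool.Agent.K1H38.OM
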