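import Pool.Agent.K1H38.OM.Ball

/-! The check of the eight values. -/

set_option autoImplicit false

namespace Pool.Agent.K1H38.OM

/-- the ball of `p ^ (- i π / log 2)` -/
def ub (c s : ℤ) : Ball := ⟨c * 1000000, -(s * 1000000), 3000000⟩

/-- the ball of `s` -/
def sK (K : ℕ) (k : Ball → Bool) : Bool :=
  forceZ ((K : ℤ) * 4532360141827) fun y => forceN (K * 4000) fun r => k ⟨DN, y, r⟩

/-- third part: the products -/
def chk3 (v3 v5 v7 v11 v13 v17 v19 v23 v29 v31 s z1 z2 : Ball) (x y : ℤ) (d : ℕ) : Bool :=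
  prK one one v3 3 fun p q => prK p q v5 5 fun p q => prK p q v7 7 fun p q =>
  prK p q v11 11 fun p q => prK p q v13 13 fun p q => prK p q v17 17 fun p q =>
  prK p q v19 19 fun p q => prK p q v23 23 fun p q => prK p q v29 29 fun p q =>
  prK p q v31 31 fun p q =>
  mulK z2 z2 fun z22 => mulK z22 z2 fun z23 => lcK z23 3 1 fun z3 => mulK p z3 fun num =>
  mulK z1 z1 fun z12 => lcK s 16 1 fun s16 => mulK q s16 fun qs => mulK qs z12 fun den =>
  finK num den x y d

/-- second part: the two values of zeta; `a`, `b` are the sums -/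
def chk2 (K : ℕ) (a b : Ball) (k : Ball → Ball → Ball → Bool) : Bool :=
  sK K fun s =>
  lcK ⟨0, 220635600152, 400⟩ 1 K fun it =>
  addK a it fun a1 => addK a1 ⟨15625000000, 0, 0⟩ fun a2 =>
  lcK s 1 12288 fun s1 => subK a2 s1 fun a3 =>
  widK a3 ((nu s.x s.y + s.r) * (nu (s.x + DN) s.y + s.r) * (nu (s.x + DN + DN) s.y + s.r) /
    (DN * DN * 11796480) + 1) fun z1 =>
  addK s s fun s2 => subK s2 one fun w => invK w fun iw =>
  alK b iw 1 32 fun b1 => subK b1 ⟨488281250, 0, 0⟩ fun b2 =>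
  alK b2 s 1 196608 fun b3 =>
  widK b3 ((nu s2.x s2.y + s2.r) * (nu (s2.x + DN) s2.y + s2.r) * (nu (s2.x + DN + DN) s2.y + s2.r) /
    (DN * DN * 503316480) + 1) fun z2 =>
  k s z1 z2

/-- the check -/
def chk (K : ℕ) (x y : ℤ) (d : ℕ) : Bool :=
  upowK (ub 263759 (-964588)) K fun v3 =>
  upowK (ub 530703 847558) K fun v5 =>
  upowK (ub (-822381) 568937) K fun v7 =>
  upowK (ub (-127105) (-991889)) K fun v11 =>
  upowK (ub 588902 (-808204)) K fun v13 =>
  upowK (ub 962487 271328) K fun v17 =>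
  upowK (ub 711696 702488) K fun v19 =>
  upowK (ub (-73954) 997262) K fun v23 =>
  upowK (ub (-902108) 431510) K fun v29 =>
  upowK (ub (-989665) 143400) K fun v31 =>
  mulUK v3 v3 fun v9 =>
  mulUK v3 v5 fun v15 =>
  mulUK v3 v7 fun v21 =>
  mulUK v5 v5 fun v25 =>
  mulUK v9 v3 fun v27 =>
  lcK one 21 32 fun a => alK a v3 5 24 fun a => alK a v5 3 20 fun a => alK a v7 3 28 fun a =>
  alK a v9 1 18 fun a => alK a v11 1 22 fun a => alK a v13 1 26 fun a => alK a v15 1 30 fun a =>
  alK a v17 1 17 fun a => alK a v19 1 19 fun a => alK a v21 1 21 fun a => alK a v23 1 23 fun a =>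
  alK a v25 1 25 fun a => alK a v27 1 27 fun a => alK a v29 1 29 fun a => alK a v31 1 31 fun a =>
  lcK one 1365 1024 fun b => asK b v3 85 576 fun b => asK b v5 21 400 fun b =>
  asK b v7 21 784 fun b => asK b v9 5 324 fun b => asK b v11 5 484 fun b =>
  asK b v13 5 676 fun b => asK b v15 5 900 fun b => asK b v17 1 289 fun b =>
  asK b v19 1 361 fun b => asK b v21 1 441 fun b => asK b v23 1 529 fun b =>
  asK b v25 1 625 fun b => asK b v27 1 729 fun b => asK b v29 1 841 fun b =>
  asK b v31 1 961 fun b =>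
  chk2 K a b fun s z1 z2 =>
  chk3 v3 v5 v7 v11 v13 v17 v19 v23 v29 v31 s z1 z2 x y d

theorem chk0 : chk 1 1787 (-137203) 194 = true := by decide +kernel
theorem chk1 : chk 3 149778 (-23401) 420 = true := by decide +kernel
theorem chk2' : chk 5 (-4088) (-20242) 93 = true := by decide +kernel
theorem chk3' : chk 7 (-13757) (-33486) 468 = true := by decide +kernel
theorem chk4 : chk 9 15610 (-43179) 1622 = true := by decide +kernel
theorem chk5 : chk 11 (-19994) (-21008) 2037 = true := by decide +kernel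
theorem chk6 : chk 13 14507 (-4691) 1380 = true := by decide +kernel
theorem chk7 : chk 15 (-1248) (-8312) 798 = true := by decide +kernel

end Pool.Agent.K1H38.OM
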