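import Pool.Agent.K1H38.OM.Chk
import Pool.Agent.K1H76.OM.Num

/-! The eight Fourier integrals: certified evaluation. -/

set_option autoImplicit false

namespace Pool.Agent.K1H38.OM

open Finset Pool.Agent.K1H76.OM

/-- `n ^ (- i T)` -/
noncomputable def V (T : ℝ) (n : ℕ) : ℂ := Complex.exp (((-(T * Real.log n) : ℝ) : ℂ) * Complex.I)

theorem norm_V (T : ℝ) (n : ℕ) : ‖V T n‖ = 1 := Complex.norm_exp_ofReal_mul_I _

theorem V_mul (T : ℝ) (m n : ℕ) (hm : m ≠ 0) (hn : n ≠ 0) : V T (m * n) = V T m * V T n := by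
  unfold V
  rw [← Complex.exp_add]
  congr 1
  rw [Nat.cast_mul, Real.log_mul (by exact_mod_cast hm) (by exact_mod_cast hn)]
  push_cast
  ring

theorem V_one (T : ℝ) : V T 1 = 1 := by
  unfold V
  simp

/-- the imaginary part of `sk k` -/
noncomputable def Tk (k : ℕ) : ℝ := Real.pi * (2 * k + 1) / Real.log 2

theorem V_two (k : ℕ) : V (Tk k) 2 = -1 := by
  unfold V Tk
  have h2 : Real.log 2 ≠ 0 := by positivity
  have e : (((-(Real.pi * (2 * k + 1) / Real.log 2 * Real.log ((2 : ℕ) : ℝ)) : ℝ) : ℂ)) * Complex.I =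
      ((2 * k + 1 : ℕ) : ℂ) * (-(Real.pi * Complex.I)) := by
    have : -(Real.pi * (2 * k + 1) / Real.log 2 * Real.log ((2 : ℕ) : ℝ)) =
        -(Real.pi * (2 * k + 1)) := by
      push_cast
      field_simp
    rw [this]
    push_cast
    ring
  rw [e, Complex.exp_nat_mul, Complex.exp_neg, Complex.exp_pi_mul_I]
  have h3 : ((-1 : ℂ))⁻¹ = -1 := by norm_num
  rw [h3]
  exact Odd.neg_one_pow ⟨k, rfl⟩

theorem V_pow (k p : ℕ) : V (Tk k) p = (V (Real.pi / Real.log 2) p) ^ (2 * k + 1) := by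
  unfold V Tk
  rw [← Complex.exp_nat_mul]
  congr 1
  push_cast
  ring

theorem cpow_eq (T : ℝ) (s : ℂ) (hs : s = 1 + Complex.I * T) (n : ℕ) (hn : n ≠ 0) :
    (n : ℂ) ^ (-s) = V T n / n := by
  have hn' : (n : ℂ) ≠ 0 := by exact_mod_cast hn
  rw [Complex.cpow_def_of_ne_zero hn', hs]
  have e : Complex.log (n : ℂ) * -(1 + Complex.I * T) =
      -Complex.log n + (((-(T * Real.log n) : ℝ) : ℂ) * Complex.I) := by
    rw [Complex.natCast_log.symm]
    push_cast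
    ring
  rw [e, Complex.exp_add, Complex.exp_neg, Complex.exp_log hn']
  unfold V
  rw [div_eq_inv_mul]

theorem mem_ub (θ : ℝ) (c s : ℤ) (h1 : |Real.cos θ - c / 10 ^ 6| ≤ 2 / 10 ^ 6)
    (h2 : |Real.sin θ - s / 10 ^ 6| ≤ 2 / 10 ^ 6) :
    Mem (ub c s) (Complex.exp (((-θ : ℝ) : ℂ) * Complex.I)) := by
  unfold Mem ub ctr
  simp only
  have e : (DN : ℂ) * Complex.exp (((-θ : ℝ) : ℂ) * Complex.I) -
      (((c * 1000000 : ℤ) : ℂ) + ((-(s * 1000000) : ℤ) : ℂ) * Complex.I) =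
      ((10 ^ 12 * (Real.cos θ - c / 10 ^ 6) : ℝ) : ℂ) +
        ((-(10 ^ 12 * (Real.sin θ - s / 10 ^ 6)) : ℝ) : ℂ) * Complex.I := by
    rw [Complex.exp_mul_I, ← Complex.ofReal_cos, ← Complex.ofReal_sin, Real.cos_neg, Real.sin_neg]
    unfold DN
    push_cast
    ring
  rw [e]
  have hsq : ‖((10 ^ 12 * (Real.cos θ - c / 10 ^ 6) : ℝ) : ℂ) +
        ((-(10 ^ 12 * (Real.sin θ - s / 10 ^ 6)) : ℝ) : ℂ) * Complex.I‖ ^ 2 ≤ (3000000 : ℝ) ^ 2 := by
    rw [← Complex.normSq_eq_norm_sq, Complex.normSq_add_mul_I]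
    have a1 : (10 ^ 12 * (Real.cos θ - c / 10 ^ 6)) ^ 2 ≤ (2000000 : ℝ) ^ 2 := by
      rw [← sq_abs]
      refine pow_le_pow_left₀ (abs_nonneg _) ?_ 2
      rw [abs_mul, abs_of_pos (by norm_num : (0 : ℝ) < 10 ^ 12)]
      nlinarith
    have a2 : (-(10 ^ 12 * (Real.sin θ - s / 10 ^ 6))) ^ 2 ≤ (2000000 : ℝ) ^ 2 := by
      rw [neg_sq, ← sq_abs]
      refine pow_le_pow_left₀ (abs_nonneg _) ?_ 2
      rw [abs_mul, abs_of_pos (by norm_num : (0 : ℝ) < 10 ^ 12)]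
      nlinarith
    nlinarith
  have := abs_le_of_sq_le_sq hsq (by norm_num)
  rw [abs_of_nonneg (norm_nonneg _)] at this
  have h9 : ((3000000 : ℕ) : ℝ) = 3000000 := by norm_num
  rw [h9]
  exact this

theorem mem_v (hT : S_TR) (k p : ℕ) (c s : ℤ) (hmem : (p, c, s) ∈ tab) {kk : Ball → Bool}
    (h : upowK (ub c s) (2 * k + 1) kk = true) : ∃ d, Mem d (V (Tk k) p) ∧ kk d = true := by
  obtain ⟨h1, h2⟩ := hT _ hmem
  simp only at h1 h2
  have h3 := mem_ub _ c s h1 h2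
  have h4 : Complex.exp (((-(Real.pi * Real.log p / Real.log 2) : ℝ) : ℂ) * Complex.I) =
      V (Real.pi / Real.log 2) p := by
    unfold V
    congr 3
    ring
  rw [h4] at h3
  rw [V_pow]
  exact upowK_sound h3 (norm_V _ _) h

theorem sum1 (W : ℕ → ℂ) (h1 : W 1 = 1) (h2 : W 2 = -1)
    (hm : ∀ m n, m ≠ 0 → n ≠ 0 → W (m * n) = W m * W n) :
    ∑ n ∈ Icc 1 32, W n / n = 21 / 32 + W 3 * 5 / 24 + W 5 * 3 / 20 + W 7 * 3 / 28 + W 9 / 18 +
      W 11 / 22 + W 13 / 26 + W 15 / 30 + W 17 / 17 + W 19 / 19 + W 21 / 21 + W 23 / 23 + W 25 / 25 +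
      W 27 / 27 + W 29 / 29 + W 31 / 31 := by
  have e4 : W 4 = 1 := by rw [show (4 : ℕ) = 2 * 2 by norm_num, hm 2 2 (by norm_num) (by norm_num), h2]; norm_num
  have e8 : W 8 = -1 := by rw [show (8 : ℕ) = 2 * 4 by norm_num, hm 2 4 (by norm_num) (by norm_num), h2, e4]; norm_num
  have e16 : W 16 = 1 := by rw [show (16 : ℕ) = 2 * 8 by norm_num, hm 2 8 (by norm_num) (by norm_num), h2, e8]; norm_num
  have e32 : W 32 = -1 := by rw [show (32 : ℕ) = 2 * 16 by norm_num, hm 2 16 (by norm_num) (by norm_num), h2, e16]; norm_num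
  have d : ∀ n, n ≠ 0 → W (2 * n) = -W n := fun n hn => by rw [hm 2 n (by norm_num) hn, h2]; ring
  have e6 := d 3 (by norm_num)
  have e10 := d 5 (by norm_num)
  have e12 := d 6 (by norm_num)
  have e14 := d 7 (by norm_num)
  have e18 := d 9 (by norm_num)
  have e20 := d 10 (by norm_num)
  have e22 := d 11 (by norm_num)
  have e24 := d 12 (by norm_num)
  have e26 := d 13 (by norm_num)
  have e28 := d 14 (by norm_num)
  have e30 := d 15 (by norm_num)
  norm_num at e6 e10 e12 e14 e18 e20 e22 e24 e26 e28 e30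
  norm_num [Finset.sum_Icc_succ_top]
  rw [e32, e30, e28, e26, e24, e22, e20, e18, e16, e14, e12, e10, e8, e6, e4, h2, h1]
  ring

theorem sum2 (W : ℕ → ℂ) (h1 : W 1 = 1) (h2 : W 2 = -1)
    (hm : ∀ m n, m ≠ 0 → n ≠ 0 → W (m * n) = W m * W n) :
    ∑ n ∈ Icc 1 32, (W n / n) * (W n / n) = 1365 / 1024 + W 3 * W 3 * 85 / 576 +
      W 5 * W 5 * 21 / 400 + W 7 * W 7 * 21 / 784 + W 9 * W 9 * 5 / 324 +
      W 11 * W 11 * 5 / 484 + W 13 * W 13 * 5 / 676 + W 15 * W 15 * 5 / 900 + W 17 * W 17 / 289 +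
      W 19 * W 19 / 361 + W 21 * W 21 / 441 + W 23 * W 23 / 529 + W 25 * W 25 / 625 +
      W 27 * W 27 / 729 + W 29 * W 29 / 841 + W 31 * W 31 / 961 := by
  have e4 : W 4 = 1 := by rw [show (4 : ℕ) = 2 * 2 by norm_num, hm 2 2 (by norm_num) (by norm_num), h2]; norm_num
  have e8 : W 8 = -1 := by rw [show (8 : ℕ) = 2 * 4 by norm_num, hm 2 4 (by norm_num) (by norm_num), h2, e4]; norm_num
  have e16 : W 16 = 1 := by rw [show (16 : ℕ) = 2 * 8 by norm_num, hm 2 8 (by norm_num) (by norm_num), h2, e8]; norm_num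
  have e32 : W 32 = -1 := by rw [show (32 : ℕ) = 2 * 16 by norm_num, hm 2 16 (by norm_num) (by norm_num), h2, e16]; norm_num
  have d : ∀ n, n ≠ 0 → W (2 * n) = -W n := fun n hn => by rw [hm 2 n (by norm_num) hn, h2]; ring
  have e6 := d 3 (by norm_num)
  have e10 := d 5 (by norm_num)
  have e12 := d 6 (by norm_num)
  have e14 := d 7 (by norm_num)
  have e18 := d 9 (by norm_num)
  have e20 := d 10 (by norm_num)
  have e22 := d 11 (by norm_num)
  have e24 := d 12 (by norm_num)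
  have e26 := d 13 (by norm_num)
  have e28 := d 14 (by norm_num)
  have e30 := d 15 (by norm_num)
  norm_num at e6 e10 e12 e14 e18 e20 e22 e24 e26 e28 e30
  norm_num [Finset.sum_Icc_succ_top]
  rw [e32, e30, e28, e26, e24, e22, e20, e18, e16, e14, e12, e10, e8, e6, e4, h2, h1]
  ring

end Pool.Agent.K1H38.OM
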