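import Pool.Agent.K1H38.OM.JJ

/-! The eight Fourier integrals: certified evaluation, second part. -/

set_option autoImplicit false

namespace Pool.Agent.K1H38.OM

open Finset Pool.Agent.K1H76.OM

theorem tau_bd : |10 ^ 12 * (Real.pi / Real.log 2) - 4532360141827| ≤ 4000 := by
  have h1 := Real.pi_gt_d20
  have h2 := Real.pi_lt_d20
  have h3 := Real.log_two_gt_d9
  have h4 := Real.log_two_lt_d9
  have h0 : (0 : ℝ) < Real.log 2 := by linarith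
  have e : 10 ^ 12 * (Real.pi / Real.log 2) - 4532360141827 =
      (10 ^ 12 * Real.pi - 4532360141827 * Real.log 2) / Real.log 2 := by
    field_simp
  rw [e, abs_div, abs_of_pos h0, div_le_iff₀ h0, abs_le]
  constructor <;> nlinarith

theorem itau_bd : |10 ^ 12 * (Real.log 2 / Real.pi) - 220635600152| ≤ 400 := by
  have h1 := Real.pi_gt_d20
  have h2 := Real.pi_lt_d20
  have h3 := Real.log_two_gt_d9
  have h4 := Real.log_two_lt_d9
  have h0 : (0 : ℝ) < Real.pi := Real.pi_pos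
  have e : 10 ^ 12 * (Real.log 2 / Real.pi) - 220635600152 =
      (10 ^ 12 * Real.log 2 - 220635600152 * Real.pi) / Real.pi := by
    field_simp
  rw [e, abs_div, abs_of_pos h0, div_le_iff₀ h0, abs_le]
  constructor <;> nlinarith

theorem sk_eq (k : ℕ) : sk (k : ℤ) = 1 + Complex.I * (Tk k : ℝ) := by
  unfold sk Tk
  push_cast
  ring

theorem sK_sound {k : ℕ} {kk : Ball → Bool} (hk : sK (2 * k + 1) kk = true) :
    ∃ d, Mem d (sk (k : ℤ)) ∧ kk d = true := by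
  unfold sK at hk
  rw [forceZ_eq, forceN_eq] at hk
  refine ⟨_, ?_, hk⟩
  unfold Mem ctr
  simp only
  rw [sk_eq]
  have e : (DN : ℂ) * (1 + Complex.I * (Tk k : ℝ)) - (((DN : ℕ) : ℤ) : ℂ) -
      (((((2 * k + 1 : ℕ) : ℤ) * 4532360141827 : ℤ)) : ℂ) * Complex.I =
      (((2 * k + 1 : ℕ) : ℝ) * (10 ^ 12 * (Real.pi / Real.log 2) - 4532360141827) : ℝ) *
        Complex.I := by
    unfold Tk DN
    push_cast
    ring
  rw [← sub_sub, e, norm_mul, Complex.norm_I, mul_one, Complex.norm_real, Real.norm_eq_abs,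
    abs_mul, abs_of_nonneg (Nat.cast_nonneg _)]
  have h := mul_le_mul_of_nonneg_left tau_bd (Nat.cast_nonneg (2 * k + 1) : (0 : ℝ) ≤ ((2 * k + 1 : ℕ) : ℝ))
  refine h.trans (le_of_eq ?_)
  push_cast
  ring

theorem mem_it : Mem ⟨0, 220635600152, 400⟩ (((Real.log 2 / Real.pi : ℝ) : ℂ) * Complex.I) := by
  unfold Mem ctr
  simp only
  have e : (DN : ℂ) * (((Real.log 2 / Real.pi : ℝ) : ℂ) * Complex.I) -
      (((0 : ℤ) : ℂ) + ((220635600152 : ℤ) : ℂ) * Complex.I) =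
      ((10 ^ 12 * (Real.log 2 / Real.pi) - 220635600152 : ℝ) : ℂ) * Complex.I := by
    unfold DN
    push_cast
    ring
  rw [e, norm_mul, Complex.norm_I, mul_one, Complex.norm_real, Real.norm_eq_abs]
  refine itau_bd.trans ?_
  norm_num

theorem mem_const (a : ℤ) (z : ℂ) (h : (10 : ℂ) ^ 12 * z = a) : Mem ⟨a, 0, 0⟩ z := by
  unfold Mem ctr
  simp only
  have : (DN : ℂ) * z - ((a : ℂ) + ((0 : ℤ) : ℂ) * Complex.I) = 0 := by
    rw [← h]
    unfold DN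
    push_cast
    ring
  rw [this, norm_zero]
  simp

theorem mem_add_one {x y : ℤ} {r : ℕ} {z : ℂ} (h : Mem ⟨x, y, r⟩ z) :
    Mem ⟨x + DN, y, r⟩ (z + 1) := by
  unfold Mem ctr at *
  simp only at *
  convert h using 2
  push_cast
  ring

theorem err_bd (n0 n1 n2 c : ℕ) (a b e : ℝ) (_ha : 0 ≤ a) (hb : 0 ≤ b) (he : 0 ≤ e) (hc : 0 < c)
    (h0 : (DN : ℝ) * a ≤ n0) (h1 : (DN : ℝ) * b ≤ n1) (h2 : (DN : ℝ) * e ≤ n2) :
    (DN : ℝ) * (a * b * e / c) ≤ ((n0 * n1 * n2 / (DN * DN * c) + 1 : ℕ) : ℝ) := by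
  have hD := DN_posR
  have hc0 : (0 : ℝ) < c := by exact_mod_cast hc
  have h3 := le_succ_div (n0 * n1 * n2) (DN * DN * c) (by have := DN_pos; positivity)
  have h4 : ((n0 * n1 * n2 : ℕ) : ℝ) ≤ ((n0 * n1 * n2 / (DN * DN * c) + 1 : ℕ) : ℝ) *
      ((DN : ℝ) * DN * c) := by exact_mod_cast h3
  have h5 : ((DN : ℝ) * a) * ((DN : ℝ) * b) * ((DN : ℝ) * e) ≤ ((n0 * n1 * n2 : ℕ) : ℝ) := by
    push_cast
    exact mul_le_mul (mul_le_mul h0 h1 (by positivity) (Nat.cast_nonneg _)) h2 (by positivity)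
      (by positivity)
  have h6 : (DN : ℝ) * (a * b * e / c) * ((DN : ℝ) * DN * c) =
      ((DN : ℝ) * a) * ((DN : ℝ) * b) * ((DN : ℝ) * e) := by
    field_simp
  refine le_of_mul_le_mul_right ?_ (by positivity : (0 : ℝ) < (DN : ℝ) * DN * c)
  rw [h6]
  exact h5.trans h4

/-- Euler-Maclaurin at `u` with `N = 32` and `X = 32 ^ (-u)` -/
theorem em32 (hE : S_EM) (u : ℂ) (r : ℕ) (hr : u.re = r) (hr1 : 1 ≤ r) (hu : u ≠ 1) (X : ℂ)
    (hX : (32 : ℂ) ^ (-u) = X) :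
    ‖riemannZeta u - (∑ n ∈ Icc (1 : ℕ) 32, (n : ℂ) ^ (-u) + 32 * X / (u - 1) - X / 2 +
      u * (X / 32) / 12)‖ ≤ ‖u‖ * ‖u + 1‖ * ‖u + 1 + 1‖ / ((120 * (r + 2) * 32 ^ (r + 2) : ℕ) : ℝ) := by
  have h := hE u (by rw [hr]; exact_mod_cast hr1) hu 32 (by norm_num)
  have h32 : ((32 : ℕ) : ℂ) = 32 := by norm_num
  have h0 : (32 : ℂ) ≠ 0 := by norm_num
  rw [h32] at h
  have e1 : (32 : ℂ) ^ (1 - u) = 32 * X := by
    rw [sub_eq_add_neg, Complex.cpow_add _ _ h0, Complex.cpow_one, hX]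
  have e2 : (32 : ℂ) ^ (-u - 1) = X / 32 := by
    rw [sub_eq_add_neg, Complex.cpow_add _ _ h0, Complex.cpow_neg_one, hX]
    ring
  rw [e1, e2, hX] at h
  refine h.trans (le_of_eq ?_)
  have e3 : (((32 : ℕ) : ℝ)) ^ (u.re + 2) = 32 ^ (r + 2) := by
    rw [hr]
    have : ((r : ℝ) + 2) = ((r + 2 : ℕ) : ℝ) := by push_cast; ring
    rw [this, Real.rpow_natCast]
    norm_num
  rw [e3, hr]
  have e4 : u + 2 = u + 1 + 1 := by ring
  rw [e4]
  push_cast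
  ring

/-- the sums -/
theorem sumA (k : ℕ) : ∑ n ∈ Icc (1 : ℕ) 32, (n : ℂ) ^ (-(sk (k : ℤ))) =
    21 / 32 + V (Tk k) 3 * 5 / 24 + V (Tk k) 5 * 3 / 20 + V (Tk k) 7 * 3 / 28 + V (Tk k) 9 / 18 +
      V (Tk k) 11 / 22 + V (Tk k) 13 / 26 + V (Tk k) 15 / 30 + V (Tk k) 17 / 17 +
      V (Tk k) 19 / 19 + V (Tk k) 21 / 21 + V (Tk k) 23 / 23 + V (Tk k) 25 / 25 +
      V (Tk k) 27 / 27 + V (Tk k) 29 / 29 + V (Tk k) 31 / 31 := by
  rw [← sum1 (V (Tk k)) (V_one _) (V_two k) (V_mul _)]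
  refine sum_congr rfl fun n hn => ?_
  rw [mem_Icc] at hn
  exact cpow_eq (Tk k) _ (sk_eq k) n (by omega)

theorem cpow2 (k n : ℕ) (hn : n ≠ 0) : (n : ℂ) ^ (-(2 * sk (k : ℤ))) =
    (V (Tk k) n / n) * (V (Tk k) n / n) := by
  have hn' : (n : ℂ) ≠ 0 := by exact_mod_cast hn
  have e : -(2 * sk (k : ℤ)) = -(sk (k : ℤ)) + -(sk (k : ℤ)) := by ring
  rw [e, Complex.cpow_add _ _ hn', cpow_eq (Tk k) _ (sk_eq k) n hn]

theorem sumB (k : ℕ) : ∑ n ∈ Icc (1 : ℕ) 32, (n : ℂ) ^ (-(2 * sk (k : ℤ))) =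
    1365 / 1024 + V (Tk k) 3 * V (Tk k) 3 * 85 / 576 +
      V (Tk k) 5 * V (Tk k) 5 * 21 / 400 + V (Tk k) 7 * V (Tk k) 7 * 21 / 784 +
      V (Tk k) 9 * V (Tk k) 9 * 5 / 324 +
      V (Tk k) 11 * V (Tk k) 11 * 5 / 484 + V (Tk k) 13 * V (Tk k) 13 * 5 / 676 +
      V (Tk k) 15 * V (Tk k) 15 * 5 / 900 + V (Tk k) 17 * V (Tk k) 17 / 289 +
      V (Tk k) 19 * V (Tk k) 19 / 361 + V (Tk k) 21 * V (Tk k) 21 / 441 +
      V (Tk k) 23 * V (Tk k) 23 / 529 + V (Tk k) 25 * V (Tk k) 25 / 625 +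
      V (Tk k) 27 * V (Tk k) 27 / 729 + V (Tk k) 29 * V (Tk k) 29 / 841 +
      V (Tk k) 31 * V (Tk k) 31 / 961 := by
  rw [← sum2 (V (Tk k)) (V_one _) (V_two k) (V_mul _)]
  refine sum_congr rfl fun n hn => ?_
  rw [mem_Icc] at hn
  exact cpow2 k n (by omega)

theorem V32 (k : ℕ) : V (Tk k) 32 = -1 := by
  have h2 := V_two k
  have e4 : V (Tk k) 4 = 1 := by
    rw [show (4 : ℕ) = 2 * 2 by norm_num, V_mul _ 2 2 (by norm_num) (by norm_num), h2]; norm_num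
  have e8 : V (Tk k) 8 = -1 := by
    rw [show (8 : ℕ) = 2 * 4 by norm_num, V_mul _ 2 4 (by norm_num) (by norm_num), h2, e4]; norm_num
  rw [show (32 : ℕ) = 4 * 8 by norm_num, V_mul _ 4 8 (by norm_num) (by norm_num), e4, e8]; norm_num

theorem Tk_pos (k : ℕ) : 0 < Tk k := by
  unfold Tk
  have := Real.pi_pos
  have : (0 : ℝ) < Real.log 2 := Real.log_pos (by norm_num)
  positivity

/-- the second part of the check -/
theorem chk2_sound (hE : S_EM) {k : ℕ} {a b : Ball} {kk : Ball → Ball → Ball → Bool}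
    (hk : chk2 (2 * k + 1) a b kk = true)
    (ha : Mem a (∑ n ∈ Icc (1 : ℕ) 32, (n : ℂ) ^ (-(sk (k : ℤ)))))
    (hb : Mem b (∑ n ∈ Icc (1 : ℕ) 32, (n : ℂ) ^ (-(2 * sk (k : ℤ))))) :
    ∃ s z1 z2, Mem s (sk (k : ℤ)) ∧ Mem z1 (riemannZeta (sk (k : ℤ))) ∧
      Mem z2 (riemannZeta (2 * sk (k : ℤ))) ∧ kk s z1 z2 = true := by
  have hT0 := Tk_pos k
  have hre : (sk (k : ℤ)).re = 1 := by rw [sk_eq]; simp
  have him : (sk (k : ℤ)).im = Tk k := by rw [sk_eq]; simp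
  have hsne : sk (k : ℤ) ≠ 1 := fun h => by rw [h] at him; simp at him; linarith
  have hre2 : (2 * sk (k : ℤ)).re = 2 := by
    rw [Complex.mul_re, hre]; simp
  obtain ⟨s, hs, hk⟩ := sK_sound hk
  obtain ⟨it, hit, hk⟩ := lcK_sound hk mem_it (Nat.succ_pos _)
  obtain ⟨a1, ha1, hk⟩ := addK_sound hk ha hit
  obtain ⟨a2, ha2, hk⟩ := addK_sound hk ha1 (mem_const 15625000000 (1 / 64) (by norm_num))
  obtain ⟨s1, hs1, hk⟩ := lcK_sound hk hs (by norm_num)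
  obtain ⟨a3, ha3, hk⟩ := subK_sound hk ha2 hs1
  have hs' : Mem ⟨s.x, s.y, s.r⟩ (sk (k : ℤ)) := hs
  have n0 := norm_le_of_mem hs'
  have n1 := norm_le_of_mem (mem_add_one hs')
  have n2 := norm_le_of_mem (mem_add_one (mem_add_one hs'))
  have X1 : (32 : ℂ) ^ (-(sk (k : ℤ))) = -1 / 32 := by
    have := cpow_eq (Tk k) _ (sk_eq k) 32 (by norm_num)
    rw [V32] at this
    exact_mod_cast this
  have em1 := em32 hE (sk (k : ℤ)) 1 (by rw [hre]; norm_num) le_rfl hsne _ X1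
  obtain ⟨z1, hz1, hk⟩ := widK_sound (z' := riemannZeta (sk (k : ℤ))) hk ha3 (by
    have hb1 := err_bd _ _ _ 11796480 _ _ _ (norm_nonneg _) (norm_nonneg _) (norm_nonneg _)
      (by norm_num) n0 n1 n2
    refine le_trans ?_ hb1
    refine mul_le_mul_of_nonneg_left ?_ DN_posR.le
    have e1 : (∑ n ∈ Icc (1 : ℕ) 32, (n : ℂ) ^ (-(sk (k : ℤ))) + 32 * (-1 / 32) / (sk (k : ℤ) - 1) -
        (-1 / 32) / 2 + sk (k : ℤ) * ((-1 / 32) / 32) / 12 : ℂ) =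
        ∑ n ∈ Icc (1 : ℕ) 32, (n : ℂ) ^ (-(sk (k : ℤ))) + ((Real.log 2 / Real.pi : ℝ) : ℂ) * Complex.I *
          ((1 : ℕ) : ℂ) / ((2 * k + 1 : ℕ) : ℂ) + 1 / 64 -
          sk (k : ℤ) * ((1 : ℕ) : ℂ) / ((12288 : ℕ) : ℂ) := by
      have e2 : (32 * (-1 / 32) / (sk (k : ℤ) - 1) : ℂ) = ((Real.log 2 / Real.pi : ℝ) : ℂ) *
          Complex.I * ((1 : ℕ) : ℂ) / ((2 * k + 1 : ℕ) : ℂ) := by
        rw [sk_eq]
        unfold Tk
        have hp : (Real.pi : ℂ) ≠ 0 := by exact_mod_cast Real.pi_pos.ne'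
        have hl : ((Real.log 2 : ℝ) : ℂ) ≠ 0 := by
          have : (0 : ℝ) < Real.log 2 := Real.log_pos (by norm_num)
          exact_mod_cast this.ne'
        have hkk : (2 * (k : ℂ) + 1) ≠ 0 := by exact_mod_cast (Nat.succ_ne_zero (2 * k))
        have hI := Complex.I_ne_zero
        push_cast
        field_simp
        linear_combination (-(Real.pi : ℂ) * (2 * (k : ℂ) + 1)) * Complex.I_sq
      rw [e2]
      push_cast
      ring
    rw [e1] at em1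
    refine em1.trans (le_of_eq ?_)
    norm_num)
  obtain ⟨s2, hs2, hk⟩ := addK_sound hk hs hs
  have hs2' : Mem s2 (2 * sk (k : ℤ)) := by convert hs2 using 1; ring
  obtain ⟨w, hw, hk⟩ := subK_sound hk hs2' mem_one
  have hw1 : 1 ≤ ‖2 * sk (k : ℤ) - 1‖ := by
    have h1 := Complex.abs_re_le_norm (2 * sk (k : ℤ) - 1)
    rw [Complex.sub_re, hre2] at h1
    simp at h1
    norm_num at h1
    exact h1
  obtain ⟨iw, hiw, hk⟩ := invK_sound hk hw hw1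
  obtain ⟨b1, hb1, hk⟩ := alK_sound hk hb hiw (by norm_num)
  obtain ⟨b2, hb2, hk⟩ := subK_sound hk hb1 (mem_const 488281250 (1 / 2048) (by norm_num))
  obtain ⟨b3, hb3, hk⟩ := alK_sound hk hb2 hs (by norm_num)
  have hs2'' : Mem ⟨s2.x, s2.y, s2.r⟩ (2 * sk (k : ℤ)) := hs2'
  have m0 := norm_le_of_mem hs2''
  have m1 := norm_le_of_mem (mem_add_one hs2'')
  have m2 := norm_le_of_mem (mem_add_one (mem_add_one hs2''))
  have X2 : (32 : ℂ) ^ (-(2 * sk (k : ℤ))) = 1 / 1024 := by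
    have := cpow2 k 32 (by norm_num)
    rw [V32] at this
    have h3 : ((32 : ℕ) : ℂ) = 32 := by norm_num
    rw [h3] at this
    rw [this]
    norm_num
  have h2ne : 2 * sk (k : ℤ) ≠ 1 := fun h => by
    rw [h] at hre2
    norm_num at hre2
  have em2 := em32 hE (2 * sk (k : ℤ)) 2 (by rw [hre2]; norm_num) (by norm_num) h2ne _ X2
  obtain ⟨z2, hz2, hk⟩ := widK_sound (z' := riemannZeta (2 * sk (k : ℤ))) hk hb3 (by
    have hb1 := err_bd _ _ _ 503316480 _ _ _ (norm_nonneg _) (norm_nonneg _) (norm_nonneg _)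
      (by norm_num) m0 m1 m2
    refine le_trans ?_ hb1
    refine mul_le_mul_of_nonneg_left ?_ DN_posR.le
    have e1 : (∑ n ∈ Icc (1 : ℕ) 32, (n : ℂ) ^ (-(2 * sk (k : ℤ))) +
        32 * (1 / 1024) / (2 * sk (k : ℤ) - 1) -
        (1 / 1024) / 2 + 2 * sk (k : ℤ) * ((1 / 1024) / 32) / 12 : ℂ) =
        ∑ n ∈ Icc (1 : ℕ) 32, (n : ℂ) ^ (-(2 * sk (k : ℤ))) +
          1 / (2 * sk (k : ℤ) - 1) * ((1 : ℕ) : ℂ) / ((32 : ℕ) : ℂ) - 1 / 2048 +
          sk (k : ℤ) * ((1 : ℕ) : ℂ) / ((196608 : ℕ) : ℂ) := by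
      push_cast
      ring
    rw [e1] at em2
    refine em2.trans (le_of_eq ?_)
    norm_num)
  exact ⟨s, z1, z2, hs, hz1, hz2, hk⟩

end Pool.Agent.K1H38.OM
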