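import Pool.Agent.K1H38.OM.JJ2

/-! The eight Fourier integrals: certified evaluation, conclusion. -/

set_option autoImplicit false

namespace Pool.Agent.K1H38.OM

open Finset Pool.Agent.K1H76.OM

theorem ident (s Z1 Z2 t a1 a2 a3 a4 a5 a6 a7 a8 a9 a10 b1 b2 b3 b4 b5 b6 b7 b8 b9 b10 : ℂ) :
    4 / (9 * s * Z1 ^ 2) * ((3 / 4 * Z2) ^ 3 *
      (a1 / b1 * (a2 / b2 * (a3 / b3 * (a4 / b4 * (a5 / b5 * (a6 / b6 * (a7 / b7 * (a8 / b8 * (a9 / b9 * (a10 / b10)))))))))) * t) =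
    ((((((((((1 * a1) * a2) * a3) * a4) * a5) * a6) * a7) * a8) * a9) * a10) * (Z2 * Z2 * Z2 * ((3 : ℕ) : ℂ) / ((1 : ℕ) : ℂ)) * t /
      (((((((((((1 * b1) * b2) * b3) * b4) * b5) * b6) * b7) * b8) * b9) * b10) * (s * ((16 : ℕ) : ℂ) / ((1 : ℕ) : ℂ)) * (Z1 * Z1)) := by
  push_cast
  simp only [div_eq_mul_inv, mul_inv]
  ring

theorem main (hE : S_EM) (hT : S_TR) (hP : S_HP) (k : ℕ) (x y : ℤ) (d : ℕ)
    (h : chk (2 * k + 1) x y d = true) :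
    ‖4 / (9 * sk (k : ℤ) * riemannZeta (sk (k : ℤ)) ^ 2) * PP (k : ℤ) -
      ((x : ℂ) + (y : ℂ) * Complex.I) / 10 ^ 6‖ ≤ (d : ℝ) / 10 ^ 6 := by
  unfold chk at h
  obtain ⟨v3, m3, h⟩ := mem_v hT k 3 (263759) (-964588) (by simp [tab]) h
  obtain ⟨v5, m5, h⟩ := mem_v hT k 5 (530703) (847558) (by simp [tab]) h
  obtain ⟨v7, m7, h⟩ := mem_v hT k 7 (-822381) (568937) (by simp [tab]) h
  obtain ⟨v11, m11, h⟩ := mem_v hT k 11 (-127105) (-991889) (by simp [tab]) h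
  obtain ⟨v13, m13, h⟩ := mem_v hT k 13 (588902) (-808204) (by simp [tab]) h
  obtain ⟨v17, m17, h⟩ := mem_v hT k 17 (962487) (271328) (by simp [tab]) h
  obtain ⟨v19, m19, h⟩ := mem_v hT k 19 (711696) (702488) (by simp [tab]) h
  obtain ⟨v23, m23, h⟩ := mem_v hT k 23 (-73954) (997262) (by simp [tab]) h
  obtain ⟨v29, m29, h⟩ := mem_v hT k 29 (-902108) (431510) (by simp [tab]) h
  obtain ⟨v31, m31, h⟩ := mem_v hT k 31 (-989665) (143400) (by simp [tab]) h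
  obtain ⟨v9, m9, h⟩ := mulUK_sound h m3 m3 (norm_V _ _) (norm_V _ _)
  rw [← V_mul (Tk k) 3 3 (by norm_num) (by norm_num)] at m9
  replace m9 : Mem v9 (V (Tk k) 9) := m9
  obtain ⟨v15, m15, h⟩ := mulUK_sound h m3 m5 (norm_V _ _) (norm_V _ _)
  rw [← V_mul (Tk k) 3 5 (by norm_num) (by norm_num)] at m15
  replace m15 : Mem v15 (V (Tk k) 15) := m15
  obtain ⟨v21, m21, h⟩ := mulUK_sound h m3 m7 (norm_V _ _) (norm_V _ _)
  rw [← V_mul (Tk k) 3 7 (by norm_num) (by norm_num)] at m21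
  replace m21 : Mem v21 (V (Tk k) 21) := m21
  obtain ⟨v25, m25, h⟩ := mulUK_sound h m5 m5 (norm_V _ _) (norm_V _ _)
  rw [← V_mul (Tk k) 5 5 (by norm_num) (by norm_num)] at m25
  replace m25 : Mem v25 (V (Tk k) 25) := m25
  obtain ⟨v27, m27, h⟩ := mulUK_sound h m9 m3 (norm_V _ _) (norm_V _ _)
  rw [← V_mul (Tk k) 9 3 (by norm_num) (by norm_num)] at m27
  replace m27 : Mem v27 (V (Tk k) 27) := m27
  obtain ⟨a0, A0, h⟩ := lcK_sound h mem_one (by norm_num)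
  obtain ⟨a1, A1, h⟩ := alK_sound h A0 m3 (by norm_num)
  obtain ⟨a2, A2, h⟩ := alK_sound h A1 m5 (by norm_num)
  obtain ⟨a3, A3, h⟩ := alK_sound h A2 m7 (by norm_num)
  obtain ⟨a4, A4, h⟩ := alK_sound h A3 m9 (by norm_num)
  obtain ⟨a5, A5, h⟩ := alK_sound h A4 m11 (by norm_num)
  obtain ⟨a6, A6, h⟩ := alK_sound h A5 m13 (by norm_num)
  obtain ⟨a7, A7, h⟩ := alK_sound h A6 m15 (by norm_num)
  obtain ⟨a8, A8, h⟩ := alK_sound h A7 m17 (by norm_num)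
  obtain ⟨a9, A9, h⟩ := alK_sound h A8 m19 (by norm_num)
  obtain ⟨a10, A10, h⟩ := alK_sound h A9 m21 (by norm_num)
  obtain ⟨a11, A11, h⟩ := alK_sound h A10 m23 (by norm_num)
  obtain ⟨a12, A12, h⟩ := alK_sound h A11 m25 (by norm_num)
  obtain ⟨a13, A13, h⟩ := alK_sound h A12 m27 (by norm_num)
  obtain ⟨a14, A14, h⟩ := alK_sound h A13 m29 (by norm_num)
  obtain ⟨a15, A15, h⟩ := alK_sound h A14 m31 (by norm_num)
  obtain ⟨b0, B0, h⟩ := lcK_sound h mem_one (by norm_num)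
  obtain ⟨b1, B1, h⟩ := asK_sound h B0 m3 (norm_V _ _) (by norm_num)
  obtain ⟨b2, B2, h⟩ := asK_sound h B1 m5 (norm_V _ _) (by norm_num)
  obtain ⟨b3, B3, h⟩ := asK_sound h B2 m7 (norm_V _ _) (by norm_num)
  obtain ⟨b4, B4, h⟩ := asK_sound h B3 m9 (norm_V _ _) (by norm_num)
  obtain ⟨b5, B5, h⟩ := asK_sound h B4 m11 (norm_V _ _) (by norm_num)
  obtain ⟨b6, B6, h⟩ := asK_sound h B5 m13 (norm_V _ _) (by norm_num)
  obtain ⟨b7, B7, h⟩ := asK_sound h B6 m15 (norm_V _ _) (by norm_num)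
  obtain ⟨b8, B8, h⟩ := asK_sound h B7 m17 (norm_V _ _) (by norm_num)
  obtain ⟨b9, B9, h⟩ := asK_sound h B8 m19 (norm_V _ _) (by norm_num)
  obtain ⟨b10, B10, h⟩ := asK_sound h B9 m21 (norm_V _ _) (by norm_num)
  obtain ⟨b11, B11, h⟩ := asK_sound h B10 m23 (norm_V _ _) (by norm_num)
  obtain ⟨b12, B12, h⟩ := asK_sound h B11 m25 (norm_V _ _) (by norm_num)
  obtain ⟨b13, B13, h⟩ := asK_sound h B12 m27 (norm_V _ _) (by norm_num)
  obtain ⟨b14, B14, h⟩ := asK_sound h B13 m29 (norm_V _ _) (by norm_num)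
  obtain ⟨b15, B15, h⟩ := asK_sound h B14 m31 (norm_V _ _) (by norm_num)
  have HA : Mem a15 (∑ n ∈ Icc (1 : ℕ) 32, (n : ℂ) ^ (-(sk (k : ℤ)))) := by
    rw [sumA]
    convert A15 using 1
    push_cast
    ring
  have HB : Mem b15 (∑ n ∈ Icc (1 : ℕ) 32, (n : ℂ) ^ (-(2 * sk (k : ℤ)))) := by
    rw [sumB]
    convert B15 using 1
    push_cast
    ring
  obtain ⟨s, z1, z2, hs, hz1, hz2, h⟩ := chk2_sound hE h HA HB
  unfold chk3 at h
  obtain ⟨p1, q1, P1, Q1, h⟩ := prK_sound h mem_one mem_one m3 (by norm_num)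
  obtain ⟨p2, q2, P2, Q2, h⟩ := prK_sound h P1 Q1 m5 (by norm_num)
  obtain ⟨p3, q3, P3, Q3, h⟩ := prK_sound h P2 Q2 m7 (by norm_num)
  obtain ⟨p4, q4, P4, Q4, h⟩ := prK_sound h P3 Q3 m11 (by norm_num)
  obtain ⟨p5, q5, P5, Q5, h⟩ := prK_sound h P4 Q4 m13 (by norm_num)
  obtain ⟨p6, q6, P6, Q6, h⟩ := prK_sound h P5 Q5 m17 (by norm_num)
  obtain ⟨p7, q7, P7, Q7, h⟩ := prK_sound h P6 Q6 m19 (by norm_num)
  obtain ⟨p8, q8, P8, Q8, h⟩ := prK_sound h P7 Q7 m23 (by norm_num)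
  obtain ⟨p9, q9, P9, Q9, h⟩ := prK_sound h P8 Q8 m29 (by norm_num)
  obtain ⟨p10, q10, P10, Q10, h⟩ := prK_sound h P9 Q9 m31 (by norm_num)
  obtain ⟨z22, Z22, h⟩ := mulK_sound h hz2 hz2
  obtain ⟨z23, Z23, h⟩ := mulK_sound h Z22 hz2
  obtain ⟨z3, Z3, h⟩ := lcK_sound h Z23 (by norm_num)
  obtain ⟨num, Hnum, h⟩ := mulK_sound h P10 Z3
  obtain ⟨z12, Z12, h⟩ := mulK_sound h hz1 hz1
  obtain ⟨s16, S16, h⟩ := lcK_sound h hs (by norm_num)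
  obtain ⟨qs, QS, h⟩ := mulK_sound h Q10 S16
  obtain ⟨den, Hden, h⟩ := mulK_sound h QS Z12
  obtain ⟨t, ht, hPP⟩ := hP (k : ℤ)
  have key := finK_sound h Hnum Hden ht
  rw [hPP]
  rw [Finset.prod_insert (by decide), Finset.prod_insert (by decide), Finset.prod_insert (by decide), Finset.prod_insert (by decide), Finset.prod_insert (by decide), Finset.prod_insert (by decide), Finset.prod_insert (by decide), Finset.prod_insert (by decide), Finset.prod_insert (by decide), Finset.prod_singleton]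
  rw [cpow_eq (Tk k) _ (sk_eq k) 3 (by norm_num)]
  rw [cpow_eq (Tk k) _ (sk_eq k) 5 (by norm_num)]
  rw [cpow_eq (Tk k) _ (sk_eq k) 7 (by norm_num)]
  rw [cpow_eq (Tk k) _ (sk_eq k) 11 (by norm_num)]
  rw [cpow_eq (Tk k) _ (sk_eq k) 13 (by norm_num)]
  rw [cpow_eq (Tk k) _ (sk_eq k) 17 (by norm_num)]
  rw [cpow_eq (Tk k) _ (sk_eq k) 19 (by norm_num)]
  rw [cpow_eq (Tk k) _ (sk_eq k) 23 (by norm_num)]
  rw [cpow_eq (Tk k) _ (sk_eq k) 29 (by norm_num)]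
  rw [cpow_eq (Tk k) _ (sk_eq k) 31 (by norm_num)]
  rw [ident]
  exact key

theorem t_JJ (hE : S_EM) (hT : S_TR) (hP : S_HP) : S_JJ := by
  intro k hk
  interval_cases k
  · exact main hE hT hP 0 _ _ _ chk0
  · exact main hE hT hP 1 _ _ _ chk1
  · exact main hE hT hP 2 _ _ _ chk2'
  · exact main hE hT hP 3 _ _ _ chk3'
  · exact main hE hT hP 4 _ _ _ chk4
  · exact main hE hT hP 5 _ _ _ chk5
  · exact main hE hT hP 6 _ _ _ chk6
  · exact main hE hT hP 7 _ _ _ chk7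

end Pool.Agent.K1H38.OM
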